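import Pool.Agent.Y906.RW.Main

/-!
# Exceptional columns: components and grids
-/

set_option autoImplicit false

namespace Pool.Agent.Y906.RW

open Filter Topology Finset Pool.Agent.H282R3.RW

noncomputable section

variable {d : ℕ} {m : V d → Equiv.Perm (Dir d)}

open Classical in
/-- the component of `y`, for an exceptional column `y` -/
def compSet (v : Fin d) (Ex : Set (V d)) (y : V d) : Finset (V d) :=
  if h : y ∈ Ex ∧ {z | Relation.ReflTransGen (fun a b => b ∈ Ex ∧ Beside v a b) y z}.Finite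
  then h.2.toFinset else ∅

theorem comp_compSet {v : Fin d} {Ex : Set (V d)} {K : ℕ} (h0 : ∀ y ∈ Ex, y v = 0)
    (hK : ∀ y ∈ Ex,
      {z | Relation.ReflTransGen (fun a b => b ∈ Ex ∧ Beside v a b) y z}.encard ≤ K) :
    Comp v Ex K (compSet v Ex) := by
  classical
  have hfin : ∀ y ∈ Ex,
      {z | Relation.ReflTransGen (fun a b => b ∈ Ex ∧ Beside v a b) y z}.Finite := fun y hy =>
    Set.finite_of_encard_le_coe (hK y hy)
  have hcase : ∀ y, ∀ z ∈ compSet v Ex y, y ∈ Ex ∧
      Relation.ReflTransGen (fun a b => b ∈ Ex ∧ Beside v a b) y z := by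
    intro y z hz
    unfold compSet at hz
    split_ifs at hz with h
    · exact ⟨h.1, by simpa using hz⟩
    · simp at hz
  have hmem : ∀ y ∈ Ex, ∀ z, Relation.ReflTransGen (fun a b => b ∈ Ex ∧ Beside v a b) y z →
      z ∈ compSet v Ex y := by
    intro y hy z hz
    unfold compSet
    rw [dif_pos ⟨hy, hfin y hy⟩]
    simpa using hz
  refine ⟨?_, ?_, ?_, ?_⟩
  · intro y
    by_cases hy : y ∈ Ex
    · have h1 : compSet v Ex y = (hfin y hy).toFinset := by
        unfold compSet
        rw [dif_pos ⟨hy, hfin y hy⟩]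
      have h2 := hK y hy
      rw [(hfin y hy).encard_eq_coe_toFinset_card, ← h1] at h2
      exact_mod_cast h2
    · have h1 : compSet v Ex y = ∅ := by
        unfold compSet
        rw [dif_neg fun h => hy h.1]
      rw [h1]
      simp
  · exact fun y hy => hmem y hy y Relation.ReflTransGen.refl
  · intro y z hz z' hz' hb
    obtain ⟨h1, h2⟩ := hcase y z hz
    exact hmem y h1 z' (h2.tail ⟨hz', hb⟩)
  · intro y z hz
    obtain ⟨h1, h2⟩ := hcase y z hz
    rcases Relation.ReflTransGen.cases_tail h2 with h3 | ⟨a, _, h3, _⟩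
    · rw [h3]; exact h0 y h1
    · exact h0 z h3

theorem div_succ {L a : ℤ} (hL : 0 < L) (h : ¬ L ∣ a + 1) : (a + 1) / L = a / L := by
  have h1 := Int.emod_add_mul_ediv a L
  have h2 := Int.emod_nonneg a hL.ne'
  have h3 := Int.emod_lt_of_pos a hL
  have h4 : a % L + 1 ≠ L := by
    intro h5
    apply h
    refine ⟨a / L + 1, ?_⟩
    rw [mul_add, mul_one]
    linarith
  have h5 : a % L + 1 < L := lt_of_le_of_ne (by linarith) h4
  exact ((Int.ediv_emod_unique hL).2 ⟨by linarith, by linarith, h5⟩).1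

/-- the columns off the grid of mesh `L` -/
def offGrid (v : Fin d) (L : ℤ) : Set (V d) :=
  {y | y v = 0 ∧ ∀ i, i ≠ v → ¬ L ∣ y i}

theorem offGrid_comp {v : Fin d} {L : ℕ} (hL : 0 < L) {y z : V d} (hy : y ∈ offGrid v (L : ℤ))
    (h : Relation.ReflTransGen (fun a b => b ∈ offGrid v (L : ℤ) ∧ Beside v a b) y z) :
    z ∈ offGrid v (L : ℤ) ∧ ∀ i, z i / (L : ℤ) = y i / (L : ℤ) := by
  have hL' : (0 : ℤ) < L := by exact_mod_cast hL
  induction h with
  | refl => exact ⟨hy, fun _ => rfl⟩
  | tail hab hbc ih =>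
    rename_i b c
    obtain ⟨ih1, ih2⟩ := ih
    obtain ⟨hc, e, he, rfl⟩ := hbc
    refine ⟨hc, fun i => ?_⟩
    rw [← ih2 i]
    by_cases hi : i = e.1
    · subst hi
      obtain ⟨i, t⟩ := e
      have h1 := ih1.2 i he
      have h2 := hc.2 i he
      cases t with
      | true =>
        have h3 : (b + vec (i, true)) i = b i + 1 := by simp [vec]
        simp only at h2 ⊢
        rw [h3] at h2 ⊢
        exact div_succ hL' h2
      | false =>
        have h3 : (b + vec (i, false)) i = b i - 1 := by simp [vec, sub_eq_add_neg]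
        simp only at h1 ⊢
        rw [h3]
        have h4 : b i = (b i - 1) + 1 := by ring
        rw [h4] at h1
        have h5 := div_succ hL' h1
        rw [← h4] at h5
        exact h5.symm
    · have h3 : (b + vec e) i = b i := by simp [vec, hi]
      rw [h3]

theorem offGrid_encard {v : Fin d} {L : ℕ} (hL : 0 < L) {y : V d}
    (hy : y ∈ offGrid v (L : ℤ)) :
    {z | Relation.ReflTransGen (fun a b => b ∈ offGrid v (L : ℤ) ∧ Beside v a b) y z}.encard
      ≤ (L ^ d : ℕ) := by
  classical
  have hL' : (0 : ℤ) < L := by exact_mod_cast hL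
  set B : Finset (V d) := Fintype.piFinset fun i =>
    Finset.Ico ((L : ℤ) * (y i / L)) ((L : ℤ) * (y i / L) + L) with hB
  have hcard : B.card = L ^ d := by
    rw [hB, Fintype.card_piFinset]
    simp
  have hsub : {z | Relation.ReflTransGen
      (fun a b => b ∈ offGrid v (L : ℤ) ∧ Beside v a b) y z} ⊆ (B : Set (V d)) := by
    intro z hz
    rw [mem_coe, hB, Fintype.mem_piFinset]
    intro i
    have h1 := (offGrid_comp hL hy hz).2 i
    have h2 := Int.emod_add_mul_ediv (z i) L
    have h3 := Int.emod_nonneg (z i) hL'.ne'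
    have h4 := Int.emod_lt_of_pos (z i) hL'
    rw [h1] at h2
    rw [Finset.mem_Ico]
    constructor <;> linarith
  calc _ ≤ (B : Set (V d)).encard := Set.encard_le_encard hsub
    _ = (L ^ d : ℕ) := by rw [Set.encard_coe_eq_coe_finsetCard, hcard]

end

end Pool.Agent.Y906.RW
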