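import Pool.Agent.H282R3.RW.Main

/-!
# Rotor walks whose rotors lead to infinity along most of the columns

The initial rotor configuration `r` is arbitrary in a set `Ex` of exceptional columns, whose
connected components have at most `K` columns. In each other column the rotors lead to infinity:
a particle that enters it for the first time moves up for ever or down for ever.
-/

set_option autoImplicit false

namespace Pool.Agent.Y906.RW

open Filter Topology Finset Pool.Agent.H282R3.RW

noncomputable section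

variable {d : ℕ} {m : V d → Equiv.Perm (Dir d)}

/-- going down for ever -/
theorem go_down (v : Fin d) (s : V d × (V d → Dir d))
    (h : ∀ j : ℕ, s.2 (s.1 - Pi.single v (j : ℤ)) = (v, false)) (j : ℕ) :
    ((step m)^[j] s).1 = s.1 - Pi.single v (j : ℤ) ∧
    ∀ y, (∀ i : ℕ, i < j → y ≠ s.1 - Pi.single v (i : ℤ)) → ((step m)^[j] s).2 y = s.2 y := by
  induction j with
  | zero => exact ⟨by simp, fun y _ => rfl⟩
  | succ j ih =>
    obtain ⟨ih1, ih2⟩ := ih
    rw [Function.iterate_succ_apply']
    have hrot : ((step m)^[j] s).2 ((step m)^[j] s).1 = (v, false) := by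
      rw [ih1, ih2 _ ?_, h]
      intro i hi heq
      have := congrFun heq v
      simp at this
      omega
    refine ⟨?_, ?_⟩
    · rw [step_fst, hrot, ih1]
      ext k
      by_cases hk : k = v
      · subst hk
        simp [vec]
        ring
      · simp [vec, hk]
    · intro y hy
      rw [step_snd, Function.update_of_ne, ih2 y fun i hi => hy i (by omega)]
      rw [ih1]
      exact hy j (by omega)

theorem foot_sub_single (v : Fin d) (x : V d) (n : ℤ) :
    foot v (x - Pi.single v n) = foot v x := by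
  unfold foot
  ext k
  by_cases hk : k = v
  · subst hk; simp
  · simp [hk]

theorem foot_zero (v : Fin d) : foot v (0 : V d) = 0 := by
  unfold foot
  ext k
  by_cases hk : k = v
  · subst hk; simp
  · simp [hk]

theorem foot_add_vec_same {v : Fin d} {e : Dir d} (he : e.1 = v) (x : V d) :
    foot v (x + vec e) = foot v x := by
  unfold vec
  rw [he]
  exact foot_add_single v x _

theorem foot_add_vec_ne {v : Fin d} {e : Dir d} (he : e.1 ≠ v) (x : V d) :
    foot v (x + vec e) = foot v x + vec e := by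
  unfold foot vec
  ext k
  by_cases hk : k = v
  · subst hk
    simp [Pi.single_eq_of_ne he.symm]
  · simp [hk]

/-- the columns with the feet `a` and `b` are neighbours -/
def Beside (v : Fin d) (a b : V d) : Prop := ∃ e : Dir d, e.1 ≠ v ∧ b = a + vec e

/-- the rotors of `r` lead from `x` to infinity, either always up or always down -/
def Lead (v : Fin d) (r : V d → Dir d) (x : V d) : Prop :=
  (∀ k : ℕ, r (x + Pi.single v (k : ℤ)) = (v, true)) ∨
    ∀ k : ℕ, r (x - Pi.single v (k : ℤ)) = (v, false)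

/-- outside the columns of `A` the rotors are those of `r` -/
def Sup (v : Fin d) (r : V d → Dir d) (A : Finset (V d)) (ρ : V d → Dir d) : Prop :=
  ∀ x, foot v x ∉ A → ρ x = r x

section potential

variable {v : Fin d} {r : V d → Dir d} {w : V d → Dir d → ℝ}

theorem abs_w_le (h0 : ∀ x, w x (r x) = 0) (hb : ∀ x e, |w x e| ≤ 2 * inc x)
    {A : Finset (V d)} {ρ : V d → Dir d} (hρ : Sup v r A ρ) (x : V d) :
    |w x (ρ x)| ≤ bd v A x := by
  unfold bd
  split_ifs with h
  · exact hb _ _
  · rw [hρ x h, h0, abs_zero]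

theorem summable_w (hd : 3 ≤ d) (h0 : ∀ x, w x (r x) = 0) (hb : ∀ x e, |w x e| ≤ 2 * inc x)
    {A : Finset (V d)} {ρ : V d → Dir d} (hρ : Sup v r A ρ) : Summable fun x => w x (ρ x) :=
  Summable.of_norm_bounded (summable_bd hd v A) fun x => by
    rw [Real.norm_eq_abs]; exact abs_w_le h0 hb hρ x

theorem abs_totW_le (hd : 3 ≤ d) (h0 : ∀ x, w x (r x) = 0)
    (hb : ∀ x e, |w x e| ≤ 2 * inc x) {A : Finset (V d)} {ρ : V d → Dir d}
    (hρ : Sup v r A ρ) : |totW w ρ| ≤ 2 * ∑ y ∈ A, colD v y := by
  have h1 : ‖∑' x, w x (ρ x)‖ ≤ ∑' x, bd v A x :=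
    tsum_of_norm_bounded (summable_bd hd v A).hasSum fun x => by
      rw [Real.norm_eq_abs]; exact abs_w_le h0 hb hρ x
  exact (Real.norm_eq_abs _ ▸ h1).trans (tsum_bd_le hd v A)

theorem supp_mono {A B : Finset (V d)} (hAB : A ⊆ B) {ρ : V d → Dir d} (h : Sup v r A ρ) :
    Sup v r B ρ := fun x hx => h x fun hxA => hx (hAB hxA)

theorem supp_update {A : Finset (V d)} {ρ : V d → Dir d} (h : Sup v r A ρ) {x : V d}
    (hx : foot v x ∈ A) (e : Dir d) : Sup v r A (Function.update ρ x e) := by
  intro y hy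
  rw [Function.update_of_ne]
  · exact h y hy
  · rintro rfl; exact hy hx

theorem totW_update (hd : 3 ≤ d) (h0 : ∀ x, w x (r x) = 0)
    (hb : ∀ x e, |w x e| ≤ 2 * inc x) {A : Finset (V d)} {ρ : V d → Dir d} (hρ : Sup v r A ρ)
    (x : V d) (e : Dir d) :
    totW w (Function.update ρ x e) = totW w ρ + (w x e - w x (ρ x)) := by
  classical
  have hρ' : Sup v r (insert (foot v x) A) (Function.update ρ x e) :=
    supp_update (supp_mono (subset_insert _ _) hρ) (mem_insert_self _ _) e
  have hs := summable_w hd h0 hb hρ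
  have hs' := summable_w hd h0 hb hρ'
  have h1 : totW w (Function.update ρ x e) - totW w ρ =
      ∑' y, (w y (Function.update ρ x e y) - w y (ρ y)) := (hs'.tsum_sub hs).symm
  rw [tsum_eq_single x] at h1
  · rw [Function.update_self] at h1
    linarith
  · intro y hy
    rw [Function.update_of_ne hy, sub_self]

variable [NeZero d]

theorem pot_step (hd : 3 ≤ d) (h0 : ∀ x, w x (r x) = 0)
    (hw : ∀ x e, w x (m x e) - w x e = avg x - hit (x + vec e))
    (hb : ∀ x e, |w x e| ≤ 2 * inc x) {A : Finset (V d)} {s : V d × (V d → Dir d)}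
    (hρ : Sup v r A s.2) :
    hit (step m s).1 + totW w (step m s).2 =
      hit s.1 + totW w s.2 - if s.1 = 0 then escapeProb d else 0 := by
  rw [step_fst, step_snd, totW_update hd h0 hb hρ, hw, avg_eq]
  ring

theorem pot_walk (hd : 3 ≤ d) (h0 : ∀ x, w x (r x) = 0)
    (hw : ∀ x e, w x (m x e) - w x e = avg x - hit (x + vec e))
    (hb : ∀ x e, |w x e| ≤ 2 * inc x) {A : Finset (V d)} {ρ : V d → Dir d} (n : ℕ)
    (hρ : ∀ k ≤ n, Sup v r A (walk m ρ k).2)
    (hne : ∀ k, 1 ≤ k → k ≤ n → (walk m ρ k).1 ≠ 0) :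
    hit (walk m ρ (n + 1)).1 + totW w (walk m ρ (n + 1)).2 = 1 + totW w ρ - escapeProb d := by
  induction n with
  | zero =>
    rw [walk_succ, pot_step hd h0 hw hb (hρ 0 le_rfl), walk_zero]
    simp [hit_zero]
  | succ n ih =>
    rw [walk_succ, pot_step hd h0 hw hb (hρ (n + 1) le_rfl),
      if_neg (hne (n + 1) (by omega) le_rfl), sub_zero]
    exact ih (fun k hk => hρ k (by omega)) fun k h1 h2 => hne k h1 (by omega)

theorem exists_weights (hm : IsMechanism m) (hd0 : 0 < d) (r : V d → Dir d) :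
    ∃ w : V d → Dir d → ℝ, (∀ x, w x (r x) = 0) ∧
      (∀ x e, w x (m x e) - w x e = avg x - hit (x + vec e)) ∧
      ∀ x e, |w x e| ≤ 2 * inc x := by
  have hd : (0 : ℝ) < 2 * d := by positivity
  have h : ∀ x : V d, ∃ w : Dir d → ℝ, w (r x) = 0 ∧
      (∀ e, w (m x e) - w e = avg x - hit (x + vec e)) ∧
      ∀ e, |w e| ≤ ∑ e', |avg x - hit (x + vec e')| := by
    intro x
    refine exists_weight (m x) (r x) (fun e => exists_pow hm x _ e)
      (fun e => avg x - hit (x + vec e)) ?_
    rw [sum_sub_distrib]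
    have : ∑ _e : Dir d, avg x = 2 * d * avg x := by
      rw [← card_dir, sum_mul]; simp
    rw [this]
    unfold avg
    field_simp
    ring
  choose w h1 h2 h3 using h
  exact ⟨w, h1, h2, fun x e => (h3 x e).trans (sum_abs_le hd0 x)⟩

end potential

section columns

variable {v : Fin d} {r : V d → Dir d} {Ex : Set (V d)}

/-- as long as the particle stays in the columns of `A` -/
theorem supp_walk {A : Finset (V d)} {ρ : V d → Dir d} (hρ : Sup v r A ρ) (n : ℕ)
    (h : ∀ k < n, foot v (walk m ρ k).1 ∈ A) : Sup v r A (walk m ρ n).2 := by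
  induction n with
  | zero => exact hρ
  | succ n ih =>
    rw [walk_succ, step_snd]
    exact supp_update (ih fun k hk => h k (by omega)) (h n (by omega)) _

/-- the column of the origin belongs to `A`, and so does each exceptional neighbour of a column
of `A` -/
def Closed (v : Fin d) (Ex : Set (V d)) (A : Finset (V d)) : Prop :=
  (0 : V d) ∈ A ∧ ∀ y ∈ A, ∀ z ∈ Ex, Beside v y z → z ∈ A

/-- entering a new column -/
theorem new_column {A : Finset (V d)} {ρ : V d → Dir d} (hρ : Sup v r A ρ)
    (hC : Closed v Ex A) (hg : ∀ x, foot v x ∉ Ex → Lead v r x) {k : ℕ}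
    (h : ∀ j < k, foot v (walk m ρ j).1 ∈ A) (hk : foot v (walk m ρ k).1 ∉ A) (j : ℕ) :
    foot v (walk m ρ (k + j)).1 = foot v (walk m ρ k).1 := by
  have hL : Lead v r (walk m ρ k).1 := by
    apply hg
    intro hex
    obtain _ | k := k
    · rw [walk_zero] at hk
      exact hk (by rw [foot_zero]; exact hC.1)
    · have h1 := h k (by omega)
      rw [walk_succ, step_fst] at hk hex
      by_cases he : ((walk m ρ k).2 (walk m ρ k).1).1 = v
      · rw [foot_add_vec_same he] at hk
        exact hk h1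
      · rw [foot_add_vec_ne he] at hk hex
        exact hk (hC.2 _ h1 _ hex ⟨_, he, rfl⟩)
  rw [walk_add]
  rcases hL with hL | hL
  · rw [(go_up v (walk m ρ k) (fun j => ?_) j).1, foot_add_single]
    rw [supp_walk hρ k h _ ?_]
    · exact hL j
    · rw [foot_add_single]; exact hk
  · rw [(go_down v (walk m ρ k) (fun j => ?_) j).1, foot_sub_single]
    rw [supp_walk hρ k h _ ?_]
    · exact hL j
    · rw [foot_sub_single]; exact hk

theorem new_column_escapes {A : Finset (V d)} {ρ : V d → Dir d} (hρ : Sup v r A ρ)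
    (hC : Closed v Ex A) (hg : ∀ x, foot v x ∉ Ex → Lead v r x) {k : ℕ}
    (h : ∀ j < k, foot v (walk m ρ j).1 ∈ A) (hk : foot v (walk m ρ k).1 ∉ A) (j : ℕ) :
    (walk m ρ (k + j)).1 ≠ 0 := by
  intro h0
  have h1 := new_column hρ hC hg h hk j
  rw [h0, foot_zero] at h1
  rw [← h1] at hk
  exact hk hC.1

variable [NeZero d]

theorem after_supp_returns {A : Finset (V d)} {ρ : V d → Dir d} (hρ : Sup v r A ρ)
    (hC : Closed v Ex A) (hg : ∀ x, foot v x ∉ Ex → Lead v r x)
    (hR : Returns m ρ) : ∃ T, 1 ≤ T ∧ (walk m ρ T).1 = 0 ∧ (∀ k, 1 ≤ k → k < T →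
      (walk m ρ k).1 ≠ 0) ∧ after m ρ = (walk m ρ T).2 ∧
        ∀ k ≤ T, Sup v r A (walk m ρ k).2 := by
  classical
  refine ⟨Nat.find hR, (Nat.find_spec hR).1, (Nat.find_spec hR).2, ?_, ?_, ?_⟩
  · intro k h1 h2 h3
    exact Nat.find_min hR h2 ⟨h1, h3⟩
  · convert after_returns hR
  · set T := Nat.find hR with hT
    have hall : ∀ k < T, foot v (walk m ρ k).1 ∈ A := by
      intro k
      induction k using Nat.strong_induction_on with
      | _ k ih =>
        intro hkT
        by_contra hkA
        have h1 := new_column_escapes hρ hC hg (fun j hj => ih j hj (by omega)) hkA (T - k)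
        rw [Nat.add_sub_cancel' hkT.le] at h1
        exact h1 (Nat.find_spec hR).2
    intro k hk
    exact supp_walk hρ k fun j hj => hall j (by omega)

/-- finite sets of columns which contain the components of the exceptional columns -/
structure Comp (v : Fin d) (Ex : Set (V d)) (K : ℕ) (S : V d → Finset (V d)) : Prop where
  card_le : ∀ y, (S y).card ≤ K
  mem : ∀ y ∈ Ex, y ∈ S y
  closed : ∀ y, ∀ z ∈ S y, ∀ z' ∈ Ex, Beside v z z' → z' ∈ S y
  foot : ∀ y, ∀ z ∈ S y, z v = 0

open Classical in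
/-- the column `y` with all its exceptional neighbours -/
def hull (v : Fin d) (S : V d → Finset (V d)) (y : V d) : Finset (V d) :=
  insert y ((univ.filter fun e : Dir d => e.1 ≠ v).biUnion fun e => S (y + vec e))

omit [NeZero d] in
theorem hull_card {K : ℕ} {S : V d → Finset (V d)} (hS : Comp v Ex K S) (y : V d) :
    (hull v S y).card ≤ Fintype.card (Dir d) * K + 1 := by
  classical
  unfold hull
  refine (card_insert_le _ _).trans (Nat.add_le_add_right ?_ 1)
  refine (card_biUnion_le_card_mul _ _ K fun e _ => hS.card_le _).trans ?_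
  exact Nat.mul_le_mul_right _ ((card_filter_le _ _).trans (by rw [card_univ]))

omit [NeZero d] in
theorem hull_self {S : V d → Finset (V d)} (y : V d) : y ∈ hull v S y := by
  classical
  exact mem_insert_self _ _

omit [NeZero d] in
theorem hull_closed {K : ℕ} {S : V d → Finset (V d)} (hS : Comp v Ex K S) (y₀ : V d) :
    ∀ y ∈ hull v S y₀, ∀ z ∈ Ex, Beside v y z → z ∈ hull v S y₀ := by
  classical
  intro y hy z hz hyz
  unfold hull at hy ⊢
  rw [mem_insert] at hy ⊢
  rcases hy with rfl | hy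
  · obtain ⟨e, he, rfl⟩ := hyz
    exact Or.inr (mem_biUnion.2 ⟨e, by simpa using he, hS.mem _ hz⟩)
  · obtain ⟨e, he, hy⟩ := mem_biUnion.1 hy
    exact Or.inr (mem_biUnion.2 ⟨e, he, hS.closed _ _ hy _ hz hyz⟩)

omit [NeZero d] in
theorem hull_foot {K : ℕ} {S : V d → Finset (V d)} (hS : Comp v Ex K S) {y₀ : V d}
    (h0 : y₀ v = 0) : ∀ y ∈ hull v S y₀, y v = 0 := by
  classical
  intro y hy
  unfold hull at hy
  rw [mem_insert] at hy
  rcases hy with rfl | hy
  · exact h0
  · obtain ⟨e, he, hy⟩ := mem_biUnion.1 hy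
    exact hS.foot _ _ hy

omit [NeZero d] in
theorem after_supp_escapes {K : ℕ} {S : V d → Finset (V d)} (hS : Comp v Ex K S)
    {A : Finset (V d)} {ρ : V d → Dir d} (hρ : Sup v r A ρ)
    (hC : Closed v Ex A) (hg : ∀ x, foot v x ∉ Ex → Lead v r x) :
    ∃ A' : Finset (V d), A'.card ≤ A.card + (Fintype.card (Dir d) * K + 1) ∧
      (∀ y ∈ A', y v = 0 ∨ y ∈ A) ∧ Closed v Ex A' ∧
      ∀ k, Sup v r A' (walk m ρ k).2 := by
  classical
  by_cases hall : ∀ k, foot v (walk m ρ k).1 ∈ A
  · exact ⟨A, by omega, fun y hy => Or.inr hy, hC, fun k => supp_walk hρ k fun j _ => hall j⟩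
  · push Not at hall
    set k := Nat.find hall with hk
    have hkA : foot v (walk m ρ k).1 ∉ A := Nat.find_spec hall
    have hkmin : ∀ j < k, foot v (walk m ρ j).1 ∈ A := fun j hj => by
      by_contra hne
      exact Nat.find_min hall hj hne
    refine ⟨A ∪ hull v S (foot v (walk m ρ k).1), ?_, ?_, ?_, ?_⟩
    · exact (card_union_le _ _).trans (Nat.add_le_add_left (hull_card hS _) _)
    · intro y hy
      rcases mem_union.1 hy with h | h
      · exact Or.inr h
      · exact Or.inl (hull_foot hS (foot_v _ _) y h)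
    · refine ⟨mem_union_left _ hC.1, fun y hy z hz hyz => ?_⟩
      rcases mem_union.1 hy with h | h
      · exact mem_union_left _ (hC.2 y h z hz hyz)
      · exact mem_union_right _ (hull_closed hS _ y h z hz hyz)
    · intro n
      refine supp_walk (supp_mono subset_union_left hρ) n fun j _ => ?_
      rcases lt_or_ge j k with h | h
      · exact mem_union_left _ (hkmin j h)
      · obtain ⟨i, rfl⟩ := Nat.exists_eq_add_of_le h
        rw [new_column hρ hC hg hkmin hkA]
        exact mem_union_right _ (hull_self _)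

end columns

section main

variable [NeZero d] {v : Fin d} {r : V d → Dir d} {Ex : Set (V d)} {w : V d → Dir d → ℝ}

theorem after_escapes (hm : IsMechanism m) (hd : 3 ≤ d) (h0 : ∀ x, w x (r x) = 0)
    (hw : ∀ x e, w x (m x e) - w x e = avg x - hit (x + vec e))
    (hb : ∀ x e, |w x e| ≤ 2 * inc x) {K : ℕ} {S : V d → Finset (V d)}
    (hS : Comp v Ex K S) {A : Finset (V d)} {ρ : V d → Dir d} (hρ : Sup v r A ρ)
    (hC : Closed v Ex A) (hg : ∀ x, foot v x ∉ Ex → Lead v r x)
    (hE : Escapes m ρ) :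
    ∃ A' : Finset (V d), A'.card ≤ A.card + (Fintype.card (Dir d) * K + 1) ∧
      (∀ y ∈ A', y v = 0 ∨ y ∈ A) ∧ Closed v Ex A' ∧
      Sup v r A' (after m ρ) ∧ totW w (after m ρ) = totW w ρ + 1 - escapeProb d := by
  obtain ⟨A', h1, h2, h2', h3⟩ := after_supp_escapes (m := m) hS hρ hC hg
  refine ⟨A', h1, h2, h2', ?_, ?_⟩
  · intro x hx
    obtain ⟨k, hk⟩ := (after_spec hm hE x).exists
    rw [← hk]
    exact h3 k x hx
  · have hne : ∀ k, 1 ≤ k → (walk m ρ k).1 ≠ 0 := fun k hk h => hE ⟨k, hk, h⟩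
    have t1 : Tendsto (fun n => hit (walk m ρ (n + 1)).1) atTop (𝓝 0) :=
      ((tendsto_hit hd).comp (tendsto_walk hm hE)).comp (tendsto_add_atTop_nat 1)
    have t2 : Tendsto (fun n => totW w (walk m ρ (n + 1)).2) atTop
        (𝓝 (totW w (after m ρ))) := by
      unfold totW
      refine tendsto_tsum_of_dominated_convergence (bound := bd v A') (summable_bd hd v A') ?_ ?_
      · intro x
        refine tendsto_const_nhds.congr' ?_
        filter_upwards [(tendsto_add_atTop_nat 1).eventually (after_spec hm hE x)] with n hn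
        rw [hn]
      · refine Eventually.of_forall fun n x => ?_
        rw [Real.norm_eq_abs]
        exact abs_w_le h0 hb (h3 _) x
    have t3 : Tendsto (fun n => hit (walk m ρ (n + 1)).1 + totW w (walk m ρ (n + 1)).2) atTop
        (𝓝 (1 + totW w ρ - escapeProb d)) := by
      refine tendsto_const_nhds.congr fun n => ?_
      exact (pot_walk hd h0 hw hb n (fun k _ => h3 k) fun k hk _ => hne k hk).symm
    have t4 := tendsto_nhds_unique (t1.add t2) t3
    linarith

theorem after_returns' (hd : 3 ≤ d) (h0 : ∀ x, w x (r x) = 0)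
    (hw : ∀ x e, w x (m x e) - w x e = avg x - hit (x + vec e))
    (hb : ∀ x e, |w x e| ≤ 2 * inc x) {A : Finset (V d)} {ρ : V d → Dir d}
    (hρ : Sup v r A ρ) (hC : Closed v Ex A) (hg : ∀ x, foot v x ∉ Ex → Lead v r x)
    (hR : Returns m ρ) :
    Sup v r A (after m ρ) ∧ totW w (after m ρ) = totW w ρ - escapeProb d := by
  obtain ⟨T, hT1, hT0, hTne, haft, hsupp⟩ := after_supp_returns hρ hC hg hR
  rw [haft]
  refine ⟨hsupp T le_rfl, ?_⟩
  obtain ⟨n, rfl⟩ : ∃ n, T = n + 1 := ⟨T - 1, by omega⟩
  have := pot_walk hd h0 hw hb n (fun k hk => hsupp k (by omega))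
    fun k h1 h2 => hTne k h1 (by omega)
  rw [hT0, hit_zero] at this
  linarith

theorem main_invariant (hm : IsMechanism m) (hd : 3 ≤ d) (h0 : ∀ x, w x (r x) = 0)
    (hw : ∀ x e, w x (m x e) - w x e = avg x - hit (x + vec e))
    (hb : ∀ x e, |w x e| ≤ 2 * inc x) {K : ℕ} {S : V d → Finset (V d)}
    (hS : Comp v Ex K S) (hg : ∀ x, foot v x ∉ Ex → Lead v r x) (n : ℕ) :
    ∃ A : Finset (V d), A.card ≤ (Fintype.card (Dir d) * K + 1) * (escapeCount m r n + 1) ∧
      (∀ y ∈ A, y v = 0) ∧ Closed v Ex A ∧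
      Sup v r A (conf m r n) ∧
      totW w (conf m r n) = escapeCount m r n - n * escapeProb d := by
  induction n with
  | zero =>
    refine ⟨hull v S 0, ?_, hull_foot hS rfl, ⟨hull_self _, hull_closed hS 0⟩,
      fun x _ => rfl, ?_⟩
    · have h1 := hull_card hS 0
      have h2 : escapeCount m r 0 = 0 := by simp [escapeCount]
      rw [h2, zero_add, mul_one]
      exact h1
    · have h1 : conf m r 0 = r := rfl
      rw [h1]
      unfold totW
      simp [h0, escapeCount]
  | succ n ih =>
    obtain ⟨A, hA1, hA2, hA2', hA3, hA4⟩ := ih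
    have hconf : conf m r (n + 1) = after m (conf m r n) := rfl
    rw [hconf]
    obtain ⟨hs1, hs2⟩ := escapeCount_succ (m := m) r n
    by_cases hR : Returns m (conf m r n)
    · obtain ⟨h1, h2⟩ := after_returns' hd h0 hw hb hA3 hA2' hg hR
      refine ⟨A, by rw [hs2 hR]; exact hA1, hA2, hA2', h1, ?_⟩
      rw [h2, hA4, hs2 hR]
      push_cast
      ring
    · obtain ⟨A', h1, h2, h2', h3, h4⟩ := after_escapes hm hd h0 hw hb hS hA3 hA2' hg hR
      refine ⟨A', ?_, fun y hy => ?_, h2', h3, ?_⟩
      · rw [hs1 hR]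
        refine h1.trans ?_
        rw [show escapeCount m r n + 1 + 1 = (escapeCount m r n + 1) + 1 by rfl, mul_add, mul_one]
        exact Nat.add_le_add_right hA1 _
      · rcases h2 y hy with h | h
        · exact h
        · exact hA2 y h
      · rw [h4, hA4, hs1 hR]
        push_cast
        ring

theorem tendsto_escapeCount (hm : IsMechanism m) (hd : 3 ≤ d) {K : ℕ}
    {S : V d → Finset (V d)} (hS : Comp v Ex K S) (hg : ∀ x, foot v x ∉ Ex → Lead v r x) :
    Tendsto (fun n : ℕ => (escapeCount m r n : ℝ) / n) atTop (𝓝 (escapeProb d)) := by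
  obtain ⟨w, h0, hw, hb⟩ := exists_weights hm (by omega) r
  set M : ℕ := Fintype.card (Dir d) * K + 1 with hM
  have hM0 : (0 : ℝ) < M := by
    have : 0 < M := by omega
    exact_mod_cast this
  rw [Metric.tendsto_atTop]
  intro ε hε
  obtain ⟨C, hC⟩ := sum_colD_le hd v (ε := ε / (8 * M)) (by positivity)
  obtain ⟨N, hN⟩ := exists_nat_gt (4 * C / ε)
  refine ⟨N + 1, fun n hn => ?_⟩
  have hn1 : (1 : ℝ) ≤ n := by
    have : 1 ≤ n := by omega
    exact_mod_cast this
  have hn0 : (0 : ℝ) < n := by linarith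
  obtain ⟨A, hA1, hA2, hA2', hA3, hA4⟩ := main_invariant hm hd h0 hw hb hS hg n
  have h1 := abs_totW_le hd h0 hb hA3
  rw [hA4] at h1
  have h2 := hC A hA2
  have h3 : (A.card : ℝ) ≤ M * (n + 1) := by
    have h5 : A.card ≤ M * (n + 1) :=
      hA1.trans (Nat.mul_le_mul_left _ (Nat.add_le_add_right (escapeCount_le _ _) 1))
    exact_mod_cast h5
  have h4 : |(escapeCount m r n : ℝ) - n * escapeProb d| ≤ 2 * (ε / 8 * (n + 1) + C) := by
    refine h1.trans ?_
    have h6 : ε / (8 * M) * (A.card : ℝ) ≤ ε / (8 * M) * (M * (n + 1)) :=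
      mul_le_mul_of_nonneg_left h3 (by positivity)
    have h7 : ε / (8 * M) * (M * ((n : ℝ) + 1)) = ε / 8 * (n + 1) := by
      field_simp
    linarith
  have h5 : 4 * C < ε * n := by
    rw [div_lt_iff₀ hε] at hN
    have : (N : ℝ) ≤ n := by exact_mod_cast (by omega : N ≤ n)
    nlinarith
  rw [Real.dist_eq]
  have h6 : (escapeCount m r n : ℝ) / n - escapeProb d =
      ((escapeCount m r n : ℝ) - n * escapeProb d) / n := by
    field_simp
  rw [h6, abs_div, abs_of_pos hn0, div_lt_iff₀ hn0]
  refine lt_of_le_of_lt h4 ?_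
  have h8 : ε ≤ ε * n := by nlinarith
  linarith

end main

end

end Pool.Agent.Y906.RW
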